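import Pool.Graph.R_seed8.H329R3.NU.All

/-! Infinitely many weak solutions: distinctness for all pairs of speeds (adapted from the library
module H105R3.NU.Distinct). -/

set_option autoImplicit false

open MeasureTheory Set Filter Topology

namespace Pool.Agent.KS6_88.NU

open Pool.Agent.H329R3.NU Pool.Agent.H329R3.PM

theorem key (κ κ' : ℝ) (w v : ℝ × ℝ → ℝ)
    (hv : ∀ z : ℝ × ℝ, z.1 ∉ Ioc (0:ℝ) 1 → v z = 0) (t : ℝ)
    (h : ∀ᵐ x : E 3, uu κ w (x, t) = uu κ' v (x, t)) :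
    ∫ ρ in Ioc (Real.exp (-((κ-κ')*t))) 1, w (ρ, t) * ρ^2 = 0 := by
  set y0 := Real.exp (-((κ-κ')*t)) with hy0
  have hy0p : 0 < y0 := Real.exp_pos _
  set f : ℝ → ℝ := (Ioc y0 1).indicator (fun ρ => w (ρ, t)) with hf
  have h1 : ∀ᵐ x : E 3, f ‖Real.exp (-κ*t) • x‖ = 0 := by
    filter_upwards [h] with x hx
    rw [norm_smul, Real.norm_of_nonneg (Real.exp_pos _).le, mul_comm]
    by_cases hm : ‖x‖ * Real.exp (-κ*t) ∈ Ioc y0 1
    · rw [hf, indicator_of_mem hm]
      have hx' : Real.exp (-3 * κ * t) * w (‖x‖ * Real.exp (-κ * t), t) =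
        Real.exp (-3 * κ' * t) * v (‖x‖ * Real.exp (-κ' * t), t) := hx
      rw [hv _ ?_, mul_zero] at hx'
      · exact (mul_eq_zero.1 hx').resolve_left (Real.exp_ne_zero _)
      · intro hc
        have h3 : y0 * Real.exp ((κ-κ') * t) < ‖x‖ * Real.exp (-κ*t) * Real.exp ((κ-κ')*t) :=
          mul_lt_mul_of_pos_right hm.1 (Real.exp_pos _)
        rw [hy0, ← Real.exp_add, mul_assoc, ← Real.exp_add] at h3
        have e1 : -((κ - κ') * t) + (κ - κ') * t = 0 := by ring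
        have e2 : -κ * t + (κ - κ') * t = -κ' * t := by ring
        rw [e1, e2, Real.exp_zero] at h3
        exact absurd hc.2 (not_le.2 h3)
    · exact indicator_of_notMem hm _
  have h2 : ∫ x : E 3, f ‖Real.exp (-κ*t) • x‖ = 0 := by
    rw [integral_congr_ae h1]; simp
  have h3 := Measure.integral_comp_smul (volume : Measure (E 3)) (fun x : E 3 => f ‖x‖)
    (Real.exp (-κ*t))
  rw [h2] at h3
  have h4 : ∫ x : E 3, f ‖x‖ = 0 := by
    rcases smul_eq_zero.1 h3.symm with h | h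
    · exfalso
      have : (Real.exp (-κ * t) ^ Module.finrank ℝ (E 3))⁻¹ ≠ 0 :=
        inv_ne_zero (pow_ne_zero _ (Real.exp_ne_zero _))
      exact this (abs_eq_zero.1 h)
    · exact h
  have h5 := integral_fun_norm_addHaar (volume : Measure (E 3)) f
  rw [h4] at h5
  have hfin : Module.finrank ℝ (E 3) = 3 := by simp
  rw [hfin] at h5
  have hball : (volume : Measure (E 3)).real (Metric.ball 0 1) ≠ 0 := by
    have h6 : (volume : Measure (E 3)) (Metric.ball 0 1) ≠ 0 :=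
      (Metric.measure_ball_pos _ _ one_pos).ne'
    have h7 : (volume : Measure (E 3)) (Metric.ball 0 1) ≠ ⊤ := measure_ball_lt_top.ne
    exact ENNReal.toReal_ne_zero.2 ⟨h6, h7⟩
  have h8 : ∫ y in Ioi (0:ℝ), y ^ (3 - 1) • f y = 0 := by
    rcases smul_eq_zero.1 h5.symm with h | h
    · norm_num at h
    rcases smul_eq_zero.1 h with h | h
    · exact absurd h hball
    · exact h
  have h9 : ∫ y in Ioi (0:ℝ), y ^ (3 - 1) • f y = ∫ ρ in Ioc y0 1, w (ρ, t) * ρ^2 := by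
    have e : (fun y : ℝ => y ^ (3 - 1) • f y) =
        (Ioc y0 1).indicator (fun ρ => w (ρ, t) * ρ^2) := by
      funext y
      by_cases hm : y ∈ Ioc y0 1
      · rw [hf, indicator_of_mem hm, indicator_of_mem hm, smul_eq_mul]; ring
      · rw [hf, indicator_of_notMem hm, indicator_of_notMem hm, smul_zero]
    rw [e, setIntegral_indicator measurableSet_Ioc]
    congr 2
    ext y
    constructor
    · exact fun h => h.2
    · exact fun h => ⟨hy0p.trans h.1, h⟩
  rw [← h9, h8]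

theorem distinct {κ κ' ε ε' T : ℝ} {w v : ℝ × ℝ → ℝ} (hκ : κ' < κ) (hT : 0 < T) (hT1 : T ≤ 1)
    (hw : CoreSol AA κ ε w) (hv : CoreSol AA κ' ε' v)
    (hε : 6 * ε < 1 - Real.exp (-(3 * (κ - κ') * (T / 2)))) :
    ¬ (uu κ w =ᵐ[(volume : Measure (E 3 × ℝ)).restrict (univ ×ˢ Ioo (0 : ℝ) T)] uu κ' v) := by
  intro hEq
  have hE2 : ∀ᵐ p ∂((volume : Measure (E 3)).prod (volume.restrict (Ioo (0:ℝ) T))),
      uu κ w p = uu κ' v p := by
    have h1 : (volume : Measure (E 3 × ℝ)).restrict (univ ×ˢ Ioo (0 : ℝ) T) =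
        (volume : Measure (E 3)).prod (volume.restrict (Ioo (0:ℝ) T)) := by
      rw [Measure.volume_eq_prod, ← Measure.prod_restrict, Measure.restrict_univ]
    rw [← h1]
    exact hEq
  have hsw : ∀ᵐ q ∂((volume.restrict (Ioo (0:ℝ) T)).prod (volume : Measure (E 3))),
      uu κ w q.swap = uu κ' v q.swap :=
    (Measure.measurePreserving_swap (μ := volume.restrict (Ioo (0:ℝ) T))
      (ν := (volume : Measure (E 3)))).quasiMeasurePreserving.ae hE2
  have hae : ∀ᵐ t ∂(volume.restrict (Ioo (0:ℝ) T)), ∀ᵐ x : E 3,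
      uu κ w (x, t) = uu κ' v (x, t) := Measure.ae_ae_of_ae_prod hsw
  have hcl : ∀ᵐ t ∂(volume.restrict (Ioo (0 : ℝ) T)), ∀ y ∈ Ioc (0 : ℝ) 1,
      |∫ ρ in Ioc (0 : ℝ) y, (w (ρ, t) - 1) * ρ ^ 2| ≤ ε :=
    ae_mono (Measure.restrict_mono (Ioo_subset_Ioo le_rfl hT1) le_rfl) hw.close
  -- a good time
  have hall : ∀ᵐ t ∂(volume.restrict (Ioo (0:ℝ) T)), t < T/2 := by
    rw [ae_restrict_iff' measurableSet_Ioo] at hae hcl ⊢
    filter_upwards [hae, hcl] with t h1 h2 ht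
    by_contra hcon
    push Not at hcon
    have g1 := key κ κ' w v hv.supp t (h1 ht)
    have g2 := h2 ht
    set y0 := Real.exp (-((κ-κ')*t)) with hy0
    have hy0p : 0 < y0 := Real.exp_pos _
    have hy01 : y0 ≤ 1 := by
      rw [hy0, Real.exp_le_one_iff]
      have : 0 ≤ (κ-κ')*t := mul_nonneg (by linarith) ht.1.le
      linarith
    have a1 := g2 1 ⟨one_pos, le_rfl⟩
    have a2 := g2 y0 ⟨hy0p, hy01⟩
    obtain ⟨B, hB⟩ := hw.bdd
    have hmeas : Measurable (fun ρ : ℝ => w (ρ, t)) :=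
      hw.meas.comp (measurable_id.prodMk measurable_const)
    have hint : ∀ a b : ℝ, 0 ≤ a → b ≤ 1 → IntegrableOn (fun ρ : ℝ => (w (ρ, t)) * ρ^2) (Ioc a b) := by
      intro a b ha hb
      have hfin : IsFiniteMeasure (volume.restrict (Ioc a b)) :=
        ⟨by rw [Measure.restrict_apply_univ]; exact measure_Ioc_lt_top⟩
      refine Integrable.mono' (g := fun _ => B) (integrable_const _) ?_ ?_
      · exact (hmeas.mul (measurable_id.pow_const 2)).aestronglyMeasurable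
      · rw [ae_restrict_iff' measurableSet_Ioc]
        refine Eventually.of_forall fun ρ hρ => ?_
        have hρ0 : 0 ≤ ρ := ha.trans hρ.1.le
        have hρ1 : ρ ≤ 1 := hρ.2.trans hb
        rw [Real.norm_of_nonneg (mul_nonneg (hw.nonneg _) (sq_nonneg _))]
        have : ρ^2 ≤ 1 := by nlinarith
        calc w (ρ, t) * ρ^2 ≤ w (ρ, t) * 1 := mul_le_mul_of_nonneg_left this (hw.nonneg _)
          _ ≤ B := by rw [mul_one]; exact hB _
    have hsq : ∀ a b : ℝ, IntegrableOn (fun ρ : ℝ => ρ^2) (Ioc a b) := fun a b =>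
      (continuous_pow 2).integrableOn_Ioc
    have hsub : ∀ a b : ℝ, 0 ≤ a → b ≤ 1 → ∫ ρ in Ioc a b, (w (ρ, t) - 1) * ρ^2 =
        (∫ ρ in Ioc a b, w (ρ, t) * ρ^2) - ∫ ρ in Ioc a b, ρ^2 := by
      intro a b ha hb
      rw [← integral_sub (hint a b ha hb) (hsq a b)]
      congr 1
      funext ρ
      ring
    have hdec : ∫ ρ in Ioc (0:ℝ) 1, (w (ρ, t) - 1) * ρ^2 =
        (∫ ρ in Ioc (0:ℝ) y0, (w (ρ, t) - 1) * ρ^2) + ∫ ρ in Ioc y0 1, (w (ρ, t) - 1) * ρ^2 := by
      have hu : Ioc (0:ℝ) 1 = Ioc 0 y0 ∪ Ioc y0 1 := (Ioc_union_Ioc_eq_Ioc hy0p.le hy01).symm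
      have hi : ∀ a b : ℝ, 0 ≤ a → b ≤ 1 →
          IntegrableOn (fun ρ : ℝ => (w (ρ, t) - 1) * ρ^2) (Ioc a b) := by
        intro a b ha hb
        have : (fun ρ : ℝ => (w (ρ, t) - 1) * ρ^2) = fun ρ => w (ρ, t) * ρ^2 - ρ^2 := by
          funext ρ; ring
        rw [this]
        exact (hint a b ha hb).sub (hsq a b)
      rw [hu, setIntegral_union (Ioc_disjoint_Ioc_of_le le_rfl) measurableSet_Ioc
        (hi 0 y0 le_rfl hy01) (hi y0 1 hy0p.le le_rfl)]
    have hlast : ∫ ρ in Ioc y0 1, (w (ρ, t) - 1) * ρ^2 = - ((1 - y0^3)/3) := by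
      rw [hsub y0 1 hy0p.le le_rfl, g1, ← intervalIntegral.integral_of_le hy01, integral_pow]
      norm_num
    have hy3 : y0 ^ 3 = Real.exp (-(3 * (κ - κ') * t)) := by
      rw [hy0, ← Real.exp_nat_mul]
      congr 1
      push_cast
      ring
    have hy3le : y0^3 ≤ Real.exp (-(3 * (κ - κ') * (T / 2))) := by
      rw [hy3]
      apply Real.exp_le_exp.2
      have h0 : 0 < κ - κ' := by linarith
      nlinarith
    rw [hdec, hlast] at a1
    have b1 := abs_le.1 a1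
    have b2 := abs_le.1 a2
    linarith [b1.1, b2.2, hy3le]
  have hpos : (volume.restrict (Ioo (0:ℝ) T)) (Ioo (T/2:ℝ) T) ≠ 0 := by
    rw [Measure.restrict_apply measurableSet_Ioo]
    have : Ioo (T/2:ℝ) T ∩ Ioo (0:ℝ) T = Ioo (T/2:ℝ) T := by
      ext x
      constructor
      · exact fun h => h.1
      · exact fun h => ⟨h, ⟨by linarith [h.1], h.2⟩⟩
    rw [this, Real.volume_Ioo]
    simp only [ne_eq, ENNReal.ofReal_eq_zero, not_le]
    linarith
  apply hpos
  refine measure_mono_null ?_ (ae_iff.1 hall)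
  intro x hx
  simp only [mem_ofPred_eq, not_lt]
  exact hx.1.le


theorem exists_seq (T : ℝ) (hT : 0 < T) (hT1 : T ≤ 1) :
    ∃ (κ ε : ℕ → ℝ) (w : ℕ → ℝ × ℝ → ℝ), (∀ k, 0 < κ k) ∧ (∀ k, CoreSol AA (κ k) (ε k) (w k)) ∧
      ∀ k l, k ≠ l →
        ¬ (uu (κ k) (w k) =ᵐ[(volume : Measure (E 3 × ℝ)).restrict (univ ×ˢ Ioo (0 : ℝ) T)]
          uu (κ l) (w l)) := by
  have hA := AA_pos
  set κ0 : ℝ := min (1 / 10) (AA / 20) with hκ
  have h0 : 0 < κ0 := lt_min (by norm_num) (by positivity)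
  have h1 : κ0 ≤ 1 / 10 := min_le_left _ _
  have h2 : κ0 ≤ AA / 20 := min_le_right _ _
  set κ : ℕ → ℝ := fun k => κ0 * (1 / 2) ^ k with hk
  have hκ0 : ∀ k, 0 < κ k := fun k => by positivity
  have hκle : ∀ k, κ k ≤ κ0 := fun k =>
    mul_le_of_le_one_right h0.le (pow_le_one₀ (by norm_num) (by norm_num))
  set ε : ℕ → ℝ := fun k => (1 - Real.exp (-(3 * (κ k / 2) * (T / 2)))) / 7 with hε
  have hε0 : ∀ k, 0 < ε k := by
    intro k
    have : Real.exp (-(3 * (κ k / 2) * (T / 2))) < 1 := by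
      rw [Real.exp_lt_one_iff]
      have := hκ0 k
      have : 0 < 3 * (κ k / 2) * (T / 2) := by positivity
      linarith
    simp only [hε]
    linarith
  have hex : ∀ k, ∃ w, CoreSol AA (κ k) (ε k) w := fun k =>
    core_all AA (κ k) (ε k) hA (hκ0 k) (hε0 k)
      (zero_all (κ k) (hκ0 k) ((hκle k).trans h1) ((hκle k).trans h2))
  choose w hw using hex
  refine ⟨κ, ε, w, hκ0, hw, ?_⟩
  have hlt : ∀ k l, k < l → κ l ≤ κ k / 2 := by
    intro k l hkl
    obtain ⟨m, rfl⟩ : ∃ m, l = k + 1 + m := ⟨l - (k + 1), by omega⟩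
    simp only [hk]
    rw [pow_add, pow_succ]
    have : (1 / 2 : ℝ) ^ m ≤ 1 := pow_le_one₀ (by norm_num) (by norm_num)
    have h3 : 0 < κ0 * (1 / 2) ^ k := by positivity
    nlinarith
  have main : ∀ k l, k < l →
      ¬ (uu (κ k) (w k) =ᵐ[(volume : Measure (E 3 × ℝ)).restrict (univ ×ˢ Ioo (0 : ℝ) T)]
          uu (κ l) (w l)) := by
    intro k l hkl
    have h3 := hlt k l hkl
    have h4 := hκ0 k
    refine distinct (by linarith) hT hT1 (hw k) (hw l) ?_
    have h5 : Real.exp (-(3 * (κ k - κ l) * (T / 2))) ≤ Real.exp (-(3 * (κ k / 2) * (T / 2))) := by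
      apply Real.exp_le_exp.2
      nlinarith
    have h6 := hε0 k
    have h7 : 7 * ε k = 1 - Real.exp (-(3 * (κ k / 2) * (T / 2))) := by
      simp only [hε]; ring
    linarith
  intro k l hkl
  rcases lt_or_gt_of_ne hkl with h | h
  · exact main k l h
  · intro hc
    exact main l k h hc.symm

end Pool.Agent.KS6_88.NU
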